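import Pool.Agent.Helper28.BE.FinalBeyond
import Pool.Agent.Helper28.BE.Main

/-!
# Project CM: beyond the entropy exponent, for orbits which stay large for `O (log x)` steps

The version of `Helper28.BE.fb_main_T` in which the points are `> z` only up to the time `N = ⌈c log x⌉`.
-/

set_option autoImplicit false

namespace Pool.Agent.Helper34.CM

open Pool.Agent.Helper68.Moeller Pool.Agent.Helper52.Tao Pool.Agent.Helper52.Moeller Pool.Agent.Helper28.BE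

variable {d m : ℕ} {r : ℤ → ℤ}

theorem exists_stage_fin (x z : ℝ) (J : ℕ) (Y : ℕ → ℝ) (K : ℕ → ℕ) (hY0 : x ≤ Y 0) (hYJ : Y J ≤ z)
    (n : ℤ) (hnx : (n : ℝ) ≤ x) (hn : ∀ k ≤ ∑ i ∈ Finset.range J, K i, z < ((T d m r)^[k] n : ℝ)) :
    ∃ j < J, ∃ t ≤ ∑ i ∈ Finset.range J, K i, ((T d m r)^[t] n : ℝ) ≤ Y j ∧
      (∀ i < t, Y j < ((T d m r)^[i] n : ℝ)) ∧
      ∀ i ≤ K j, Y (j + 1) < ((T d m r)^[i] ((T d m r)^[t] n) : ℝ) := by
  classical
  set M : ℕ → ℕ := fun j => ∑ i ∈ Finset.range j, K i with hM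
  have hmono : ∀ j, j ≤ J → M j ≤ M J := fun j hj =>
    Finset.sum_le_sum_of_subset (Finset.range_mono hj)
  by_contra hcon
  push Not at hcon
  have hP : ∀ j ≤ J, ∃ t ≤ M j, ((T d m r)^[t] n : ℝ) ≤ Y j := by
    intro j
    induction j with
    | zero => intro _; exact ⟨0, Nat.zero_le _, by simpa using hnx.trans hY0⟩
    | succ j ih =>
      intro hj
      obtain ⟨t', ht', hty'⟩ := ih (by omega)
      have hex : ∃ t, ((T d m r)^[t] n : ℝ) ≤ Y j := ⟨t', hty'⟩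
      set t := Nat.find hex with ht
      have h1 : ((T d m r)^[t] n : ℝ) ≤ Y j := Nat.find_spec hex
      have h2 : t ≤ M j := (Nat.find_min' hex hty').trans ht'
      have h3 : ∀ i < t, Y j < ((T d m r)^[i] n : ℝ) := fun i hi =>
        not_le.1 (Nat.find_min hex hi)
      obtain ⟨i, hi, hi2⟩ := hcon j (by omega) t (h2.trans (hmono j (by omega))) h1 h3
      refine ⟨i + t, ?_, ?_⟩
      · simp only [hM, Finset.sum_range_succ]
        have : t ≤ ∑ i ∈ Finset.range j, K i := h2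
        omega
      · rw [Function.iterate_add_apply]; exact hi2
  obtain ⟨t, ht0, ht⟩ := hP J le_rfl
  exact absurd (hn t ht0) (not_lt.2 (ht.trans hYJ))

/-- The main estimate for the `T`-orbits. -/
theorem fb_main_T_fin (hd : 2 ≤ d) (hdm : d < m) (hco : Nat.Coprime m d) (hr : Admissible d m r)
    {η γ C₀ : ℝ} (hη0 : 0 < η) (hη1 : η < 1) (hγ0 : 0 < γ) (hγ1 : γ < 1) (hC₀ : 0 < C₀) {B : ℕ}
    (hB1 : 1 ≤ B) (hB : ∀ j : ℤ, 0 < j → j < (d : ℤ) → |r j| ≤ B)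
    (hstay : ∀ K : ℕ, 1 ≤ K → ∀ Y₁ Y₂ : ℝ,
        1 ≤ Y₁ → Y₁ ≤ (d : ℝ) ^ K → (d : ℝ) ^ K ≤ d * Y₁ → Y₁ ^ γ ≤ Y₂ →
        2 * (B : ℝ) * ((2 * K : ℕ) : ℝ) ≤ Y₂ → ∀ F : Finset ℤ,
          (∀ y ∈ F, 0 < y ∧ (y : ℝ) ≤ Y₁ ∧ ∀ i ≤ 2 * K, Y₂ < ((T d m r)^[i] y : ℝ)) →
            (F.card : ℝ) ≤ C₀ * Y₁ ^ η) :
    ∃ C c : ℝ, 0 < C ∧ 0 < c ∧ ∀ x z : ℝ, 2 ≤ x → 1 ≤ z → ∀ S : Finset ℤ,
        (∀ n ∈ S, 0 < n ∧ (n : ℝ) ≤ x ∧ ∀ k ≤ ⌈c * Real.log x⌉₊, z < ((T d m r)^[k] n : ℝ)) →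
          (S.card : ℝ) ≤ C * Real.log x ^ 4 * x * z ^ (η - 1) := by
  classical
  obtain ⟨c, hc0, hscales⟩ := fb_scales hd hγ0 hγ1
  have hl2 : 0 < Real.log 2 := Real.log_pos (by norm_num)
  have hm1 : 1 ≤ m := by omega
  have hd1 : (1 : ℝ) ≤ d := by exact_mod_cast (by omega : 1 ≤ d)
  set c₁ := c + 1 / Real.log 2 with hc₁
  have hc₁0 : 0 < c₁ := by positivity
  refine ⟨(68 * C₀ * d ^ 2 * c₁ ^ 4 + 2 * c₁ / Real.log 2 ^ 3) * B, c, by positivity, hc0, ?_⟩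
  intro x z hx hz S hS
  have hB1' : (1 : ℝ) ≤ B := by exact_mod_cast hB1
  have hx0 : 0 < x := by linarith
  have hz0 : 0 < z := by linarith
  have hlx2 : Real.log 2 ≤ Real.log x := Real.log_le_log (by norm_num) hx
  have hlx : 0 < Real.log x := hl2.trans_le hlx2
  set N := ⌈c * Real.log x⌉₊ with hN
  have hN1 : 1 ≤ N := Nat.one_le_iff_ne_zero.2 (by
    rw [hN]; exact (Nat.ceil_pos.2 (by positivity)).ne')
  have hN1' : (1 : ℝ) ≤ N := by exact_mod_cast hN1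
  have hNc : (N : ℝ) ≤ c₁ * Real.log x := by
    have h1 := (Nat.ceil_lt_add_one (show 0 ≤ c * Real.log x by positivity)).le
    have h2 : 1 ≤ 1 / Real.log 2 * Real.log x := by
      rw [div_mul_eq_mul_div, one_mul, one_le_div hl2]; exact hlx2
    rw [hc₁, add_mul]
    linarith
  have hcN : c * Real.log x ≤ N := Nat.le_ceil _
  rcases lt_or_ge z (2 * B * N) with hz2 | hz2
  · -- trivial range
    have hcard : (S.card : ℝ) ≤ x := by
      have h1 : S ⊆ Finset.Icc 1 ⌊x⌋ := by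
        intro n hn
        obtain ⟨a1, a2, _⟩ := hS n hn
        rw [Finset.mem_Icc]
        exact ⟨a1, Int.le_floor.2 a2⟩
      have h2 := Finset.card_le_card h1
      rw [Int.card_Icc] at h2
      have h3 : ((⌊x⌋ + 1 - 1).toNat : ℤ) = ⌊x⌋ := by
        rw [add_sub_cancel_right]
        exact Int.toNat_of_nonneg (Int.floor_nonneg.2 hx0.le)
      calc (S.card : ℝ) ≤ ((⌊x⌋ + 1 - 1).toNat : ℝ) := by exact_mod_cast h2
        _ = ((((⌊x⌋ + 1 - 1).toNat : ℤ)) : ℝ) := by push_cast; rfl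
        _ = (⌊x⌋ : ℝ) := by rw [h3]
        _ ≤ x := Int.floor_le x
    have h1 : (2 * (B : ℝ) * N)⁻¹ ≤ z ^ (η - 1) := by
      calc (2 * (B : ℝ) * N)⁻¹ ≤ z⁻¹ := inv_anti₀ hz0 hz2.le
        _ = z ^ (-1 : ℝ) := (Real.rpow_neg_one z).symm
        _ ≤ z ^ (η - 1) := Real.rpow_le_rpow_of_exponent_le hz (by linarith)
    have h2 : x ≤ (2 * c₁ / Real.log 2 ^ 3) * B * Real.log x ^ 4 * x * (2 * (B : ℝ) * N)⁻¹ := by
      have h3 : (2 * c₁ / Real.log 2 ^ 3) * B * Real.log x ^ 4 * x * (2 * (B : ℝ) * N)⁻¹ =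
          (c₁ * Real.log x / N) * (Real.log x ^ 3 / Real.log 2 ^ 3) * x := by
        field_simp
      rw [h3]
      have h4 : 1 ≤ c₁ * Real.log x / N := by
        rw [one_le_div (by positivity)]; exact hNc
      have h5 : 1 ≤ Real.log x ^ 3 / Real.log 2 ^ 3 := by
        rw [one_le_div (by positivity)]
        exact pow_le_pow_left₀ hl2.le hlx2 3
      have h6 : 1 ≤ (c₁ * Real.log x / N) * (Real.log x ^ 3 / Real.log 2 ^ 3) := by
        nlinarith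
      nlinarith
    calc (S.card : ℝ) ≤ x := hcard
      _ ≤ (2 * c₁ / Real.log 2 ^ 3) * B * Real.log x ^ 4 * x * (2 * (B : ℝ) * N)⁻¹ := h2
      _ ≤ (2 * c₁ / Real.log 2 ^ 3) * B * Real.log x ^ 4 * x * z ^ (η - 1) := by gcongr
      _ ≤ (68 * C₀ * d ^ 2 * c₁ ^ 4 + 2 * c₁ / Real.log 2 ^ 3) * B * Real.log x ^ 4 * x *
          z ^ (η - 1) := by
          gcongr
          have : 0 ≤ 68 * C₀ * d ^ 2 * c₁ ^ 4 := by positivity
          linarith
  rcases le_or_gt x z with hxz | hxz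
  · -- nothing to count
    have : S = ∅ := by
      rw [Finset.eq_empty_iff_forall_notMem]
      intro n hn
      obtain ⟨_, a2, a3⟩ := hS n hn
      have := a3 0 (Nat.zero_le _)
      simp only [Function.iterate_zero, id_eq] at this
      linarith
    rw [this]
    simp only [Finset.card_empty, Nat.cast_zero]
    positivity
  have h2z : 2 ≤ z := by nlinarith
  obtain ⟨J, Y, K, hY0, hYJ, hYb, hK, hJN, hKN⟩ := hscales x z h2z hxz
  have hKN' : ∑ j ∈ Finset.range J, 2 * K j ≤ N := by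
    have : ((∑ j ∈ Finset.range J, 2 * K j : ℕ) : ℝ) ≤ N := hKN.trans hcN
    exact_mod_cast this
  have hJN' : (J : ℝ) ≤ N := hJN.trans hcN
  have hKj : ∀ j < J, 2 * K j ≤ N := fun j hj =>
    (Finset.single_le_sum (f := fun j => 2 * K j) (fun _ _ => Nat.zero_le _)
      (Finset.mem_range.2 hj)).trans hKN'
  -- the stages
  set F : ℕ → Finset ℤ := fun j => (Finset.Icc 1 ⌊Y j⌋).filter
    (fun y => ∀ i ≤ 2 * K j, Y (j + 1) < ((T d m r)^[i] y : ℝ)) with hF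
  set P : ℕ → ℤ → Prop := fun j n => ∃ t ≤ N, ((T d m r)^[t] n : ℝ) ≤ Y j ∧
      (∀ i < t, Y j < ((T d m r)^[i] n : ℝ)) ∧
      ∀ i ≤ 2 * K j, Y (j + 1) < ((T d m r)^[i] ((T d m r)^[t] n) : ℝ) with hP
  have hcover : S ⊆ (Finset.range J).biUnion (fun j => S.filter (P j)) := by
    intro n hn
    obtain ⟨a1, a2, a3⟩ := hS n hn
    obtain ⟨j, hj, t, ht, h1, h2, h3⟩ := exists_stage_fin x z J Y (fun j => 2 * K j) hY0.ge hYJ.le n a2
      (fun k hk => a3 k (hk.trans hKN'))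
    rw [Finset.mem_biUnion]
    exact ⟨j, Finset.mem_range.2 hj, Finset.mem_filter.2 ⟨hn, t, ht.trans hKN', h1, h2, h3⟩⟩
  have hFj : ∀ j < J, ((F j).card : ℝ) ≤ C₀ * Y j ^ η := by
    intro j hj
    obtain ⟨k1, k2, k3, k4⟩ := hK j hj
    have hYj := hYb j hj.le
    have hYj' := hYb (j + 1) hj
    refine hstay (K j) k1 (Y j) (Y (j + 1)) (by linarith) k2 k3 k4 ?_ (F j) ?_
    · have h1 : ((2 * K j : ℕ) : ℝ) ≤ N := by exact_mod_cast hKj j hj
      have h2 : 2 * (B : ℝ) * ((2 * K j : ℕ) : ℝ) ≤ 2 * B * N := by gcongr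
      linarith
    · intro y hy
      rw [hF, Finset.mem_filter, Finset.mem_Icc] at hy
      exact ⟨by linarith [hy.1.1], Int.le_floor.1 hy.1.2, hy.2⟩
  have hSj : ∀ j ∈ Finset.range J, ((S.filter (P j)).card : ℝ) ≤
      68 * C₀ * d ^ 2 * B * (N : ℝ) ^ 3 * x * z ^ (η - 1) := by
    intro j hj
    rw [Finset.mem_range] at hj
    have hYj := hYb j hj.le
    have hYj0 : 0 < Y j := by linarith
    have h1 := card_stage hr hd hm1 hco hB hB1 hN1 (Y := Y j) (Y' := Y (j + 1))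
      (by linarith) (x := x) hYj.2 (2 * K j) (S.filter (P j)) (F j) (by
        intro y hy0 hyY hyT
        rw [hF, Finset.mem_filter, Finset.mem_Icc]
        exact ⟨⟨by omega, Int.le_floor.2 hyY⟩, hyT⟩) (by
        intro y hy
        rw [hF, Finset.mem_filter, Finset.mem_Icc] at hy
        exact ⟨by linarith [hy.1.1], Int.le_floor.1 hy.1.2⟩) (by
        intro n hn
        rw [Finset.mem_filter] at hn
        obtain ⟨hn1, t, ht1, ht2, ht3, ht4⟩ := hn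
        obtain ⟨a1, a2, a3⟩ := hS n hn1
        refine ⟨a1, a2, t, ht1, ?_, ht2, ht3, ht4⟩
        have : (0 : ℝ) < ((T d m r)^[t] n : ℝ) := hz0.trans (a3 t ht1)
        exact_mod_cast this)
    have h2 : ((N : ℝ) + 1) ^ 2 ≤ 4 * (N : ℝ) ^ 2 := by nlinarith
    have h3 : Y j ^ η * (x / Y j) ≤ x * z ^ (η - 1) := by
      have h4 : Y j ^ η * (x / Y j) = x * Y j ^ (η - 1) := by
        rw [Real.rpow_sub_one hYj0.ne']
        field_simp
      rw [h4]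
      refine mul_le_mul_of_nonneg_left ?_ hx0.le
      exact Real.rpow_le_rpow_of_nonpos hz0 hYj.1 (by linarith)
    calc ((S.filter (P j)).card : ℝ)
        ≤ (F j).card * (17 * B * N * ((N : ℝ) + 1) ^ 2 * d ^ 2 * (x / Y j)) := h1
      _ ≤ (C₀ * Y j ^ η) * (17 * B * N * (4 * (N : ℝ) ^ 2) * d ^ 2 * (x / Y j)) := by
          have := hFj j hj
          gcongr
      _ = 68 * C₀ * d ^ 2 * B * (N : ℝ) ^ 3 * (Y j ^ η * (x / Y j)) := by ring
      _ ≤ 68 * C₀ * d ^ 2 * B * (N : ℝ) ^ 3 * (x * z ^ (η - 1)) := by gcongr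
      _ = _ := by ring
  have hsum : (S.card : ℝ) ≤ ∑ j ∈ Finset.range J, ((S.filter (P j)).card : ℝ) := by
    have h1 := (Finset.card_le_card hcover).trans Finset.card_biUnion_le
    exact_mod_cast h1
  have hfin : (S.card : ℝ) ≤ N * (68 * C₀ * d ^ 2 * B * (N : ℝ) ^ 3 * x * z ^ (η - 1)) := by
    refine hsum.trans ((Finset.sum_le_card_nsmul _ _ _ hSj).trans ?_)
    rw [Finset.card_range, nsmul_eq_mul]
    exact mul_le_mul_of_nonneg_right hJN' (by positivity)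
  calc (S.card : ℝ) ≤ N * (68 * C₀ * d ^ 2 * B * (N : ℝ) ^ 3 * x * z ^ (η - 1)) := hfin
    _ = 68 * C₀ * d ^ 2 * (N : ℝ) ^ 4 * B * x * z ^ (η - 1) := by ring
    _ ≤ 68 * C₀ * d ^ 2 * (c₁ * Real.log x) ^ 4 * B * x * z ^ (η - 1) := by gcongr
    _ = (68 * C₀ * d ^ 2 * c₁ ^ 4) * B * Real.log x ^ 4 * x * z ^ (η - 1) := by ring
    _ ≤ (68 * C₀ * d ^ 2 * c₁ ^ 4 + 2 * c₁ / Real.log 2 ^ 3) * B * Real.log x ^ 4 * x *
          z ^ (η - 1) := by
        gcongr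
        have : 0 ≤ 2 * c₁ / Real.log 2 ^ 3 := by positivity
        linarith

/-- **Beyond the entropy exponent**, for orbits which stay `> z` for `O (log x)` steps. -/
theorem beyond_fin (hd : 2 ≤ d) (hdm : d < m) (hco : Nat.Coprime m d)
    (hm : (m : ℝ) ≤ (d : ℝ) ^ ((d : ℝ) / ((d : ℝ) - 1))) :
    ∃ η₁ : ℝ, 0 < η₁ ∧ η₁ < eta d m ∧ ∀ r : ℤ → ℤ, Admissible d m r →
      ∃ C c : ℝ, 0 < C ∧ 0 < c ∧ ∀ x z : ℝ, 2 ≤ x → 1 ≤ z → ∀ S : Finset ℤ,
        (∀ n ∈ S, 0 < n ∧ (n : ℝ) ≤ x ∧ ∀ k ≤ ⌈c * Real.log x⌉₊, z < ((T d m r)^[k] n : ℝ)) →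
          (S.card : ℝ) ≤ C * Real.log x ^ 4 * x * z ^ (η₁ - 1) := by
  have heta1 := eta_lt_one hd hdm hco hm
  obtain ⟨η₁, δ, hη0, hη1, hδ, hcore⟩ := core hd hdm hco hm
  obtain ⟨γ, hγ0, hγ1, hstay⟩ := fb_stay hd hdm hη0 (by norm_num : (1 / 400 : ℝ) ≤ 1) hδ
  refine ⟨η₁, hη0, hη1, ?_⟩
  intro r hr
  obtain ⟨C₀, hC₀, hst⟩ := hstay r hr (hcore r hr)
  obtain ⟨B, hB1, hB⟩ : ∃ B : ℕ, 1 ≤ B ∧ ∀ j : ℤ, 0 < j → j < (d : ℤ) → |r j| ≤ B := by
    refine ⟨1 + ∑ j ∈ Finset.range d, (r j).natAbs, by omega, ?_⟩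
    intro j hj hjd
    have h1 : j.toNat ∈ Finset.range d := by
      rw [Finset.mem_range]; omega
    have h2 := Finset.single_le_sum (f := fun j : ℕ => (r j).natAbs) (fun i _ => Nat.zero_le _) h1
    have h3 : ((j.toNat : ℕ) : ℤ) = j := Int.toNat_of_nonneg hj.le
    simp only [h3] at h2
    rw [Int.abs_eq_natAbs]
    have h4 : (r j).natAbs ≤ 1 + ∑ j ∈ Finset.range d, (r j).natAbs := by omega
    exact_mod_cast h4
  exact fb_main_T_fin hd hdm hco hr hη0 (by linarith) hγ0 hγ1 hC₀ hB1 hB (hst B hB1 hB)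

end Pool.Agent.Helper34.CM
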