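import Pool.Agent.Helper34.CM.Beyond
import Pool.Agent.Helper51.PD.Main

/-!
# Project CM: beyond the entropy exponent, for the paths to `a`

The integers with a path to `a` above `z` have upper density `≤ C z ^ (-κ)` for all `κ < κ₀`, where `κ₀ > 1 - η(d, m)` depends
only on `(d, m)` (proof of helper51, over `beyond_fin`).
-/

set_option autoImplicit false

namespace Pool.Agent.Helper34.CM

open Filter Topology Pool.Agent.Helper68.Moeller Pool.Agent.Helper52.Moeller Pool.Agent.Helper51.PD Pool.Agent.Helper28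
open Pool.Agent.Helper8.ND (cN)

/-- **Beyond the entropy exponent** for the integers up to `x` with a path to `a` above `z`. -/
theorem card_beyond {d m : ℕ} (hd : 2 ≤ d) (hdm : d < m) (hco : Nat.Coprime m d)
    (hm : (m : ℝ) ≤ (d : ℝ) ^ ((d : ℝ) / ((d : ℝ) - 1))) :
    ∃ η : ℝ, 0 < η ∧ η < eta d m ∧ ∀ r : ℤ → ℤ, Admissible d m r → ∃ C : ℝ, 0 < C ∧ ∀ (a : ℤ) (x z : ℝ), 2 ≤ x → 1 ≤ z →
      ({n : ℤ | 0 < n ∧ (n : ℝ) ≤ x ∧ n ∈ Gz d m r a z}.ncard : ℝ) ≤ C * Real.log x ^ 4 * x * z ^ (η - 1) := by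
  classical
  obtain ⟨η, hη0, hη, hall⟩ := beyond_fin hd hdm hco hm
  have hη1 : η < 1 := hη.trans (eta_lt_one hd hdm hco hm)
  refine ⟨η, hη0, hη, fun r hr => ?_⟩
  obtain ⟨C₁, c, hC₁, hc, hmain⟩ := hall r hr
  obtain ⟨B, hB1, hB⟩ := exists_B d r
  have hm1 : 1 ≤ m := by omega
  have hB1' : (1 : ℝ) ≤ B := by exact_mod_cast hB1
  have hl2 : 0 < Real.log 2 := Real.log_pos (by norm_num)
  set c₁ := c + 1 / Real.log 2 with hc₁
  have hc₁0 : 0 < c₁ := by positivity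
  refine ⟨C₁ * B + 68 * B * c₁ ^ 3 / Real.log 2 + 2 * B * c₁ / Real.log 2 ^ 3, by positivity, ?_⟩
  intro a x z hx hz
  have hx0 : 0 < x := by linarith
  have hz0 : 0 < z := by linarith
  have hlx2 : Real.log 2 ≤ Real.log x := Real.log_le_log (by norm_num) hx
  have hlx : 0 < Real.log x := hl2.trans_le hlx2
  have hzη : 0 < z ^ (η - 1) := Real.rpow_pos_of_pos hz0 _
  set N := ⌈c * Real.log x⌉₊ with hN
  have hN1 : 1 ≤ N := Nat.one_le_iff_ne_zero.2 (by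
    rw [hN]; exact (Nat.ceil_pos.2 (by positivity)).ne')
  have hN1' : (1 : ℝ) ≤ N := by exact_mod_cast hN1
  have hNc : (N : ℝ) ≤ c₁ * Real.log x := by
    have h1 := (Nat.ceil_lt_add_one (show 0 ≤ c * Real.log x by positivity)).le
    have h2 : 1 ≤ 1 / Real.log 2 * Real.log x := by
      rw [div_mul_eq_mul_div, one_mul, one_le_div hl2]; exact hlx2
    rw [hc₁, add_mul]
    linarith
  have hfin : {n : ℤ | 0 < n ∧ (n : ℝ) ≤ x ∧ n ∈ Gz d m r a z}.Finite := by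
    refine (Set.finite_Icc 0 ⌊x⌋).subset ?_
    rintro n ⟨a1, a2, _⟩
    exact ⟨a1.le, Int.le_floor.2 a2⟩
  set S : Finset ℤ := hfin.toFinset with hS
  have hSmem : ∀ n ∈ S, 0 < n ∧ (n : ℝ) ≤ x ∧ n ∈ Gz d m r a z := by
    intro n hn
    rw [hS, Set.Finite.mem_toFinset] at hn
    exact hn
  rw [Set.ncard_eq_toFinset_card _ hfin, ← hS]
  rcases lt_or_ge z (2 * B * N) with hz2 | hz2
  · -- trivial range
    have hcard : (S.card : ℝ) ≤ x := by
      have h1 : S ⊆ Finset.Icc 1 ⌊x⌋ := by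
        intro n hn
        obtain ⟨a1, a2, _⟩ := hSmem n hn
        rw [Finset.mem_Icc]
        exact ⟨a1, Int.le_floor.2 a2⟩
      have h2 := Finset.card_le_card h1
      rw [Int.card_Icc] at h2
      have h3 : ((⌊x⌋ + 1 - 1).toNat : ℤ) = ⌊x⌋ := by
        rw [add_sub_cancel_right]
        exact Int.toNat_of_nonneg (Int.floor_nonneg.2 hx0.le)
      calc (S.card : ℝ) ≤ ((⌊x⌋ + 1 - 1).toNat : ℝ) := by exact_mod_cast h2
        _ = ((((⌊x⌋ + 1 - 1).toNat : ℤ)) : ℝ) := by push_cast; rfl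
        _ = (⌊x⌋ : ℝ) := by rw [h3]
        _ ≤ x := Int.floor_le x
    have h1 : (2 * (B : ℝ) * N)⁻¹ ≤ z ^ (η - 1) := by
      calc (2 * (B : ℝ) * N)⁻¹ ≤ z⁻¹ := inv_anti₀ hz0 hz2.le
        _ = z ^ (-1 : ℝ) := (Real.rpow_neg_one z).symm
        _ ≤ z ^ (η - 1) := Real.rpow_le_rpow_of_exponent_le hz (by
            linarith)
    have h2 : x ≤ (2 * B * c₁ / Real.log 2 ^ 3) * Real.log x ^ 4 * x * (2 * (B : ℝ) * N)⁻¹ := by
      have h3 : (2 * B * c₁ / Real.log 2 ^ 3) * Real.log x ^ 4 * x * (2 * (B : ℝ) * N)⁻¹ =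
          (c₁ * Real.log x / N) * (Real.log x ^ 3 / Real.log 2 ^ 3) * x := by
        field_simp
      rw [h3]
      have h4 : 1 ≤ c₁ * Real.log x / N := by
        rw [one_le_div (by positivity)]; exact hNc
      have h5 : 1 ≤ Real.log x ^ 3 / Real.log 2 ^ 3 := by
        rw [one_le_div (by positivity)]
        exact pow_le_pow_left₀ hl2.le hlx2 3
      have h6 : 1 ≤ (c₁ * Real.log x / N) * (Real.log x ^ 3 / Real.log 2 ^ 3) := by
        nlinarith
      nlinarith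
    calc (S.card : ℝ) ≤ x := hcard
      _ ≤ (2 * B * c₁ / Real.log 2 ^ 3) * Real.log x ^ 4 * x * (2 * (B : ℝ) * N)⁻¹ := h2
      _ ≤ (2 * B * c₁ / Real.log 2 ^ 3) * Real.log x ^ 4 * x * z ^ (η - 1) := by gcongr
      _ ≤ _ := by
          gcongr
          have : 0 ≤ C₁ * B + 68 * B * c₁ ^ 3 / Real.log 2 := by positivity
          linarith
  rcases lt_or_ge x z with hxz | hxz
  · -- nothing to count
    have : S = ∅ := by
      rw [Finset.eq_empty_iff_forall_notMem]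
      intro n hn
      obtain ⟨_, a2, s, _, a3⟩ := hSmem n hn
      have := a3 0 (Nat.zero_le _)
      simp only [Function.iterate_zero, id_eq] at this
      linarith
    rw [this]
    simp only [Finset.card_empty, Nat.cast_zero]
    positivity
  set P : ℤ → Prop := fun n => ∃ t ≤ N, (T d m r)^[t] n = a ∧ ∀ i ≤ t, z < ((T d m r)^[i] n : ℝ) with hP
  have h1 : ((S.filter P).card : ℝ) ≤ 68 * B * (N : ℝ) ^ 3 * (x / z) := by
    refine card_hit (a := a) hr hd hm1 hB hB1 hN1 hz2 hxz _ ?_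
    intro n hn
    rw [Finset.mem_filter] at hn
    exact ⟨(hSmem n hn.1).1, (hSmem n hn.1).2.1, hn.2⟩
  have h2' : ((S.filter fun n => ¬ P n).card : ℝ) ≤ C₁ * Real.log x ^ 4 * x * z ^ (η - 1) := by
    refine hmain x z hx hz _ ?_
    intro n hn
    rw [Finset.mem_filter] at hn
    obtain ⟨hn1, hn2⟩ := hn
    obtain ⟨a1, a2, s, a3, a4⟩ := hSmem n hn1
    have hs : N < s := by
      by_contra hcon
      rw [not_lt] at hcon
      exact hn2 ⟨s, hcon, a3, a4⟩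
    exact ⟨a1, a2, fun k hk => a4 k (hk.trans hs.le)⟩
  have h2 : ((S.filter fun n => ¬ P n).card : ℝ) ≤ C₁ * B * Real.log x ^ 4 * x * z ^ (η - 1) := by
    refine h2'.trans ?_
    have hCB : C₁ ≤ C₁ * B := le_mul_of_one_le_right hC₁.le hB1'
    gcongr
  have h3 : (S.card : ℝ) = ((S.filter P).card : ℝ) + ((S.filter fun n => ¬ P n).card : ℝ) := by
    rw [← Finset.card_filter_add_card_filter_not (s := S) P]
    push_cast; rfl
  have h4 : x / z ≤ x * z ^ (η - 1) := by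
    rw [div_eq_mul_inv, ← Real.rpow_neg_one z]
    refine mul_le_mul_of_nonneg_left ?_ hx0.le
    exact Real.rpow_le_rpow_of_exponent_le hz (by
      linarith)
  have h5 : (N : ℝ) ^ 3 ≤ c₁ ^ 3 / Real.log 2 * Real.log x ^ 4 := by
    calc (N : ℝ) ^ 3 ≤ (c₁ * Real.log x) ^ 3 := by gcongr
      _ = c₁ ^ 3 / Real.log 2 * (Real.log x ^ 3 * Real.log 2) := by field_simp
      _ ≤ c₁ ^ 3 / Real.log 2 * (Real.log x ^ 3 * Real.log x) := by gcongr
      _ = _ := by ring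
  rw [h3]
  calc ((S.filter P).card : ℝ) + ((S.filter fun n => ¬ P n).card : ℝ)
      ≤ 68 * B * (N : ℝ) ^ 3 * (x / z) + C₁ * B * Real.log x ^ 4 * x * z ^ (η - 1) := by linarith
    _ ≤ 68 * B * (c₁ ^ 3 / Real.log 2 * Real.log x ^ 4) * (x * z ^ (η - 1)) +
        C₁ * B * Real.log x ^ 4 * x * z ^ (η - 1) := by gcongr
    _ = (C₁ * B + 68 * B * c₁ ^ 3 / Real.log 2) * Real.log x ^ 4 * x * z ^ (η - 1) := by ring
    _ ≤ (C₁ * B + 68 * B * c₁ ^ 3 / Real.log 2 + 2 * B * c₁ / Real.log 2 ^ 3) * Real.log x ^ 4 * x *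
          z ^ (η - 1) := by
        have hpos : 0 ≤ 2 * (B : ℝ) * c₁ / Real.log 2 ^ 3 := by positivity
        refine mul_le_mul_of_nonneg_right ?_ hzη.le
        refine mul_le_mul_of_nonneg_right ?_ hx0.le
        refine mul_le_mul_of_nonneg_right ?_ (by positivity)
        linarith

/-- **The integers with a path to `a` above `z`**, with an exponent larger than `1 - η(d, m)`. -/
theorem path_tail_beyond {d m : ℕ} (hd : 2 ≤ d) (hdm : d < m) (hco : Nat.Coprime m d)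
    (hm : (m : ℝ) ≤ (d : ℝ) ^ ((d : ℝ) / ((d : ℝ) - 1))) :
    ∃ κ₀ : ℝ, 1 - eta d m < κ₀ ∧ ∀ r : ℤ → ℤ, POSB.Std d m r → ∀ κ : ℝ, 0 < κ → κ < κ₀ →
      ∃ C : ℝ, 0 < C ∧ ∀ (a : ℤ) (z ε : ℝ), 1 ≤ a → 1 ≤ z → 0 < ε → ∀ᶠ x : ℝ in atTop,
        cN {n : ℤ | ∃ t : ℕ, (T d m r)^[t] n = a ∧ ∀ i ≤ t, z < ((T d m r)^[i] n : ℝ)} x ≤
          (C * z ^ (-κ) + ε) * x := by
  obtain ⟨η₁, hη0, hη1, hall⟩ := card_beyond hd hdm hco hm
  refine ⟨1 - η₁, by linarith, fun r h κ hκ hκ1 => ?_⟩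
  obtain ⟨CT, hCT, hT⟩ := hall r h.hr
  set η₂ : ℝ := η₁ with hη₂
  have hθ : 0 < (1 - κ - η₂) / 4 := by linarith
  exact Helper5.PD.path_tail_of (η := η₂) hθ (by ring) hκ hCT (fun a x z hx hz => hT a x z hx hz) (fdrec h)

end Pool.Agent.Helper34.CM
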