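import Pool.Agent.Helper28.POSB.Basins

/-!
# Project CM: the size of the sets of predecessors, definitions

`c (a)` = the natural density of the integers with `a` on their orbit, `M (a)` = the least positive integer which is not dead and has `a`
on its orbit: `c / M (a) ≤ c (a) ≤ C M (a) ^ (-κ)`.
-/

set_option autoImplicit false

namespace Pool.Agent.Helper34.CM

open Filter Topology Pool.Agent.Helper68.Moeller Pool.Agent.Helper52.Tao Pool.Agent.Helper8.ND
  Pool.Agent.Helper91 Pool.Agent.Helper8 Pool.Agent.Helper28 Pool.Agent.Helper28.POSB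

/-- the integers with a path to `a` which stays `> z` (the end `a` included) -/
def PathS (d m : ℕ) (r : ℤ → ℤ) (z : ℝ) (a : ℤ) : Set ℤ :=
  {n | ∃ t : ℕ, (T d m r)^[t] n = a ∧ ∀ i ≤ t, z < ((T d m r)^[i] n : ℝ)}

/-- the integers with a path to `a` which stays `> z` and has a point `≤ Y` -/
def PathY (d m : ℕ) (r : ℤ → ℤ) (z Y : ℝ) (a : ℤ) : Set ℤ :=
  {n | ∃ t : ℕ, (T d m r)^[t] n = a ∧ (∀ i ≤ t, z < ((T d m r)^[i] n : ℝ)) ∧ ∃ i ≤ t, ((T d m r)^[i] n : ℝ) ≤ Y}

open Classical in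
/-- the least positive integer which is not dead and has `a` on its orbit -/
noncomputable def Mn (d m : ℕ) (r : ℤ → ℤ) (a : ℤ) : ℕ :=
  sInf {n : ℕ | 0 < n ∧ ¬ PL.Dead d m r n ∧ ∃ t : ℕ, (T d m r)^[t] (n : ℤ) = a}

end Pool.Agent.Helper34.CM
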