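import Pool.Agent.Helper34.CM.Defs

/-!
# Project CM, block 2: from one range of scales to the density

Adapted from `Pool.Agent.Helper52.Tao.FIN` (helper52), for the sets which are invariant under `T` beyond a threshold.
-/

set_option autoImplicit false

namespace Pool.Agent.Helper34.CM

open Filter Topology Pool.Agent.Helper68.Moeller Pool.Agent.Helper52.Tao Pool.Agent.Helper8.ND
  Pool.Agent.Helper91 Pool.Agent.Helper8 Pool.Agent.Helper28 Pool.Agent.Helper28.POSB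

variable {d m : ℕ} {r : ℤ → ℤ}

/-- One step of the recursion. -/
private theorem one_step34 (h : Std d m r) (n : ℕ) :
    ∃ c₁ C₂ C U₀ : ℝ, 0 < c₁ ∧ c₁ ≤ 1 / 2 ∧ 0 < C₂ ∧ 0 < C ∧ 0 < U₀ ∧ ∀ z : ℝ, 1 ≤ z → ∀ S : Set ℤ, TInv d m r S z → ∀ u, U₀ ≤ u →
      C * z ^ 2 ≤ Real.exp (u / 2) → ∀ G, 0 ≤ G →
        (∀ u', u / 2 ≤ u' → u' ≤ (1 - c₁) * u → fd S (Real.exp u') ≤ G) →
          fd S (Real.exp u) ≤ G + C₂ * (u ^ n)⁻¹ := by
  classical
  have hd := h.hd
  have hdm := h.hdm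
  have hco := h.hco
  have hm := h.hw
  have hd' : (2 : ℝ) ≤ d := by exact_mod_cast hd
  have hd0 : (0 : ℝ) < d := by linarith
  have hm0 : (0 : ℝ) < m := by
    have : 0 < m := by omega
    exact_mod_cast this
  have hD := log_d_pos hd
  have hM := log_m_gt hd hdm
  have hM0 : 0 < Real.log m := hD.trans hM
  obtain ⟨hp1, hp2⟩ := p_bounds hd hdm hco hm
  set al : ℝ := (1 - 1 / (d : ℝ) + Real.log d / Real.log m) / 2 with hal
  have hal1 : (1 - 1 / (d : ℝ)) * 1 < al := by rw [hal]; linarith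
  have hal2 : al < Real.log d / Real.log m := by rw [hal]; linarith
  have hδ : 0 < Real.log d - al * Real.log m := by
    rw [lt_div_iff₀ hM0] at hal2
    linarith
  set δ := Real.log d - al * Real.log m with hδ_def
  obtain ⟨c, hc0, hc⟩ := chernoff hd one_pos hal1
  obtain ⟨C, hC0, hC⟩ := flow_le hd hdm hco h.hr h.mix (n : ℝ)
  set L := Real.log d + Real.log m with hL
  have hL0 : 0 < L := by positivity
  set c₀ := 1 / (16 * L) with hc₀
  have hc₀0 : 0 < c₀ := by positivity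
  have hc₀L : c₀ * L = 1 / 16 := by rw [hc₀]; field_simp
  have hδL : δ ≤ L := by
    have : 0 ≤ al * Real.log m := by
      have : 0 ≤ al := by
        have : (0 : ℝ) ≤ 1 - 1 / (d : ℝ) := by
          rw [sub_nonneg, div_le_one hd0]; linarith
        linarith
      positivity
    rw [hδ_def, hL]; linarith
  refine ⟨c₀ * δ / 2, 2 * (n.factorial / (c * c₀ / 2) ^ n) + C * ((c₀ / 2) ^ n)⁻¹, C, 2 / c₀,
    by positivity, ?_, by positivity, hC0, by positivity, ?_⟩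
  · have : c₀ * δ ≤ c₀ * L := mul_le_mul_of_nonneg_left hδL hc₀0.le
    linarith
  intro z hz S hS u hu hCz G hG hG'
  have hu0 : 0 < u := lt_of_lt_of_le (by positivity) hu
  have hcu : 2 ≤ c₀ * u := by
    rw [div_le_iff₀ hc₀0] at hu
    linarith
  set t := ⌊c₀ * u⌋₊ with ht
  have ht1 : (t : ℝ) ≤ c₀ * u := Nat.floor_le (by positivity)
  have ht2 : c₀ * u < t + 1 := Nat.lt_floor_add_one _
  have ht3 : c₀ / 2 * u ≤ t := by linarith
  have ht4 : 1 ≤ t := by
    rw [ht]; exact Nat.le_floor (by push_cast; linarith)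
  have ht0 : (0 : ℝ) < t := by exact_mod_cast ht4
  have htL : (t : ℝ) * L ≤ u / 16 := by
    have := mul_le_mul_of_nonneg_right ht1 hL0.le
    have h2 : c₀ * u * L = u / 16 := by
      rw [mul_right_comm, hc₀L]; ring
    linarith
  -- the condition of the flow inequality
  have hcond : C * z ^ 2 * ((d : ℝ) * m) ^ (8 * t) ≤ Real.exp u := by
    have h2 : ((d : ℝ) * m) ^ (8 * t) ≤ Real.exp (u / 2) := by
      have h3 : ((d : ℝ) * m) ^ (8 * t) = Real.exp (8 * t * L) := by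
        rw [hL, ← Real.log_mul hd0.ne' hm0.ne', ← Real.exp_log (show (0 : ℝ) < ((d : ℝ) * m) ^ (8 * t) by
          positivity), Real.log_pow]
        push_cast
        rfl
      rw [h3]
      exact Real.exp_le_exp.2 (by nlinarith)
    calc C * z ^ 2 * ((d : ℝ) * m) ^ (8 * t) ≤ Real.exp (u / 2) * Real.exp (u / 2) :=
          mul_le_mul hCz h2 (by positivity) (Real.exp_pos _).le
      _ = Real.exp u := by rw [← Real.exp_add]; congr 1; ring
  have hflow := hC t ht4 z (Real.exp u) hz hcond S hS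
  -- the sum over the words
  have hsum : ∑ v ∈ W d t, fd S (Real.exp u * (m : ℝ) ^ sg v / (d : ℝ) ^ t) ≤
      (d : ℝ) ^ t * G + 2 * cW d t (fun w => al * t ≤ (sg w : ℝ)) := by
    rw [cW_eq_sum, Finset.mul_sum]
    have hcard : (d : ℝ) ^ t * G = ∑ _v ∈ W d t, G := by
      rw [Finset.sum_const, card_W, nsmul_eq_mul]
      push_cast; rfl
    rw [hcard, ← Finset.sum_add_distrib]
    refine Finset.sum_le_sum fun v hv => ?_
    have hsgv : (sg v : ℝ) ≤ t := by
      have := sg_le_length v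
      rw [length_of_mem_W hv] at this
      exact_mod_cast this
    have hval : Real.exp u * (m : ℝ) ^ sg v / (d : ℝ) ^ t =
        Real.exp (u + sg v * Real.log m - t * Real.log d) := by
      rw [Real.exp_sub, Real.exp_add, ← Real.log_pow, ← Real.log_pow, Real.exp_log (by positivity),
        Real.exp_log (by positivity)]
    rw [hval]
    have htD : (t : ℝ) * Real.log d ≤ u / 16 := by
      refine le_trans (mul_le_mul_of_nonneg_left ?_ ht0.le) htL
      rw [hL]; linarith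
    have hsM : 0 ≤ (sg v : ℝ) * Real.log m := by positivity
    split_ifs with hsv
    · have h2 : fd S (Real.exp (u + sg v * Real.log m - t * Real.log d)) ≤ 2 :=
        fd_le_two S (Real.one_le_exp (by linarith))
      linarith
    · rw [not_le] at hsv
      have h2 : (sg v : ℝ) * Real.log m ≤ al * t * Real.log m :=
        mul_le_mul_of_nonneg_right hsv.le hM0.le
      have h3 : (c₀ / 2 * u) * δ ≤ t * δ := mul_le_mul_of_nonneg_right ht3 hδ.le
      have h4 := hG' (u + sg v * Real.log m - t * Real.log d) (by linarith) (by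
        rw [hδ_def] at h3 ⊢
        nlinarith)
      linarith
  have hdt : (0 : ℝ) < (d : ℝ) ^ t := by positivity
  have hch := hc t t (by linarith)
  have h5 : (∑ v ∈ W d t, fd S (Real.exp u * (m : ℝ) ^ sg v / (d : ℝ) ^ t)) / (d : ℝ) ^ t ≤
      G + 2 * Real.exp (-(c * t)) := by
    rw [div_le_iff₀ hdt]
    refine hsum.trans ?_
    have h9 := mul_le_mul_of_nonneg_left hch (by norm_num : (0 : ℝ) ≤ 2)
    have h10 : (G + 2 * Real.exp (-(c * t))) * (d : ℝ) ^ t =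
        (d : ℝ) ^ t * G + 2 * ((d : ℝ) ^ t * Real.exp (-(c * t))) := by ring
    rw [h10]
    linarith
  have h6 : Real.exp (-(c * t)) ≤ n.factorial / (c * c₀ / 2) ^ n * (u ^ n)⁻¹ := by
    refine le_trans (Real.exp_le_exp.2 ?_) (exp_neg_le (by positivity) n hu0)
    have h9 := mul_le_mul_of_nonneg_left ht3 hc0.le
    have h10 : c * c₀ / 2 * u = c * (c₀ / 2 * u) := by ring
    rw [h10]
    linarith
  have h7 : (t : ℝ) ^ (-(n : ℝ)) ≤ ((c₀ / 2) ^ n)⁻¹ * (u ^ n)⁻¹ := by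
    rw [Real.rpow_neg ht0.le, Real.rpow_natCast, ← mul_inv, ← mul_pow]
    exact inv_anti₀ (by positivity) (pow_le_pow_left₀ (by positivity) ht3 n)
  have h8 : C * (t : ℝ) ^ (-(n : ℝ)) ≤ C * (((c₀ / 2) ^ n)⁻¹ * (u ^ n)⁻¹) :=
    mul_le_mul_of_nonneg_left h7 hC0.le
  calc fd S (Real.exp u) ≤ _ := hflow
    _ ≤ (G + 2 * Real.exp (-(c * t))) + C * (t : ℝ) ^ (-(n : ℝ)) := by linarith
    _ ≤ G + 2 * (n.factorial / (c * c₀ / 2) ^ n * (u ^ n)⁻¹) + C * (((c₀ / 2) ^ n)⁻¹ * (u ^ n)⁻¹) := by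
        linarith
    _ = _ := by ring

/-- **Block 2**. From one range of scales to the density, with the error `u₀ ^ (-n)`. -/
theorem dens_le (h : Std d m r) (n : ℕ) (hn : 1 ≤ n) : ∃ C U₀ : ℝ, 0 < C ∧ 1 ≤ U₀ ∧ ∀ Y : ℝ, 1 ≤ Y → ∀ G : Set ℤ, TInv d m r G Y →
    ∀ u₀ G₀ : ℝ, U₀ ≤ u₀ → C * Y ^ 2 ≤ Real.exp (u₀ / 2) → 0 ≤ G₀ → (∀ u, u₀ / 2 ≤ u → u ≤ u₀ → fd G (Real.exp u) ≤ G₀) →
      PL.dens G ≤ G₀ + C * (u₀ ^ n)⁻¹ := by
  obtain ⟨c₁, C₂, C, U₀, hc1, hc1', hC20, hC0, hU0, hstep⟩ := one_step34 h n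
  have h1c : 0 < 1 - c₁ := by linarith
  have hpow : (1 - c₁) ^ n < 1 := pow_lt_one₀ h1c.le (by linarith) (by omega)
  have hden : 0 < ((1 - c₁) ^ n)⁻¹ - 1 := by
    have := (one_lt_inv₀ (pow_pos h1c n)).2 hpow
    linarith
  refine ⟨C + C₂ / (((1 - c₁) ^ n)⁻¹ - 1) * 2 ^ n, max U₀ 1, by positivity, le_max_right _ _, ?_⟩
  intro Y hY G hG u₀ G₀ hu₀ hCY hG₀ hbase
  have hu1 : U₀ ≤ u₀ := (le_max_left _ _).trans hu₀
  have hu2 : 1 ≤ u₀ := (le_max_right _ _).trans hu₀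
  have hu0 : 0 < u₀ := by linarith
  have hq : 0 ≤ C₂ / (((1 - c₁) ^ n)⁻¹ - 1) * 2 ^ n := by positivity
  have hCY' : C * Y ^ 2 ≤ Real.exp (u₀ / 2) := by
    refine le_trans (mul_le_mul_of_nonneg_right ?_ (by positivity)) hCY
    linarith
  have key := recursion (fun u => fd G (Real.exp u)) (u₀ := u₀) (G₀ := G₀) (c₁ := c₁) (C₂ := C₂) hn hu0 hG₀ hc1 hc1' hC20.le hbase
    (fun u hu G' hG' hG'' => hstep Y hY G hG u (hu1.trans hu) (hCY'.trans (Real.exp_le_exp.2 (by linarith))) G' hG' hG'')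
  have hlim := PL.stab_tendsto h.hd h.hdm h.hco h.hr h.gam h.mix hG
  refine le_of_tendsto hlim ?_
  filter_upwards [eventually_ge_atTop (Real.exp (u₀ / 2))] with A hA
  have hA0 : 0 < A := lt_of_lt_of_le (Real.exp_pos _) hA
  have h1 : u₀ / 2 ≤ Real.log A := (Real.le_log_iff_exp_le hA0).2 hA
  have h2 := key (Real.log A) h1
  simp only [Real.exp_log hA0] at h2
  refine h2.trans ?_
  have h3 : 0 ≤ C * (u₀ ^ n)⁻¹ := by positivity
  have h4 : C₂ / (((1 - c₁) ^ n)⁻¹ - 1) * (2 ^ n * (u₀ ^ n)⁻¹) = C₂ / (((1 - c₁) ^ n)⁻¹ - 1) * 2 ^ n * (u₀ ^ n)⁻¹ := by ring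
  rw [h4, add_mul]
  linarith

end Pool.Agent.Helper34.CM
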