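import Pool.Agent.Helper68.Moeller.Residues

/-!
# The entropy exponent of `3x + 1` is less than `19 / 20`
-/

set_option autoImplicit false
set_option exponentiation.threshold 5000

namespace Pool.Agent.Helper34.CM

open Real Pool.Agent.Helper68.Moeller

private theorem log_ratio34 : (147 / 233 : ℝ) ≤ Real.log 2 / Real.log 3 := by
  have h3 : (0 : ℝ) < Real.log 3 := Real.log_pos (by norm_num)
  rw [div_le_div_iff₀ (by norm_num) h3]
  have h1 : Real.log ((3 : ℝ) ^ 147) ≤ Real.log ((2 : ℝ) ^ 233) := Real.log_le_log (by positivity) (by norm_num)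
  rw [Real.log_pow, Real.log_pow] at h1
  push_cast at h1
  linarith

private theorem entropy34 : Real.binEntropy (147 / 233) < 19 / 20 * Real.log 2 := by
  have e1 : Real.binEntropy (147 / 233) = 147 / 233 * Real.log (233 / 147) + 86 / 233 * Real.log (233 / 86) := by
    unfold Real.binEntropy
    norm_num
  rw [e1]
  have h1 : Real.log ((233 : ℝ) ^ 4660) < Real.log (2 ^ 4427 * 147 ^ 2940 * 86 ^ 1720) :=
    Real.log_lt_log (by positivity) (by norm_num)
  rw [Real.log_mul (by positivity) (by positivity), Real.log_mul (by positivity) (by positivity), Real.log_pow, Real.log_pow, Real.log_pow,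
    Real.log_pow] at h1
  rw [Real.log_div (by norm_num) (by norm_num), Real.log_div (by norm_num) (by norm_num)]
  push_cast at h1
  linarith

/-- The entropy exponent of the map `3x + 1` (and of all `3x - r`). -/
theorem eta_two_three : eta 2 3 < 19 / 20 := by
  have h2 : (0 : ℝ) < Real.log 2 := Real.log_pos (by norm_num)
  have h3 : (0 : ℝ) < Real.log 3 := Real.log_pos (by norm_num)
  have h23 : Real.log 2 ≤ Real.log 3 := Real.log_le_log (by norm_num) (by norm_num)
  unfold eta
  push_cast
  rw [div_lt_iff₀ h2]
  have e : Real.qaryEntropy 2 (Real.log 2 / Real.log 3) = Real.binEntropy (Real.log 2 / Real.log 3) := by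
    simp [Real.qaryEntropy]
  rw [e]
  have hp := log_ratio34
  have hle : Real.binEntropy (Real.log 2 / Real.log 3) ≤ Real.binEntropy (147 / 233) := by
    apply Real.binEntropy_strictAntiOn.antitoneOn
    · constructor <;> norm_num
    · constructor
      · refine le_trans ?_ hp
        norm_num
      · rw [div_le_one h3]
        exact h23
    · exact hp
  exact lt_of_le_of_lt hle entropy34

end Pool.Agent.Helper34.CM
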