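import Pool.Agent.Helper30.PD.MinLaw

/-!
# Project CM: the tail of the law of the orbit minimum, and `E`

`E (d, m, R)` is finite iff the sum of the `p (e)`, `e > z`, is `o (1 / z)`.
-/

set_option autoImplicit false

namespace Pool.Agent.Helper34.CM

open Filter Topology Pool.Agent.Helper68.Moeller Pool.Agent.Helper91 Pool.Agent.Helper28 Pool.Agent.Helper30.PD

variable {d m : ℕ} {r : ℤ → ℤ}

theorem E_finite_iff_tail (h : POSB.Std d m r) (hs : Summable fun e : ℤ => PL.dens (MinAt d m r e)) :
    (E d m r).Finite ↔ Tendsto (fun z : ℝ => z * ∑' e : ℤ,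
      Set.indicator {e : ℤ | z < (e : ℝ)} (fun e => PL.dens (MinAt d m r e)) e) atTop (𝓝 0) := by
  classical
  rw [(law_E h).2]
  constructor
  · intro hfin
    obtain ⟨B, hB⟩ := hfin.bddAbove
    refine tendsto_const_nhds.congr' ?_
    filter_upwards [eventually_ge_atTop (B : ℝ)] with z hz
    have h1 : ∀ e : ℤ, Set.indicator {e : ℤ | z < (e : ℝ)} (fun e => PL.dens (MinAt d m r e)) e = 0 := by
      intro e
      by_cases he : z < (e : ℝ)
      · rw [Set.indicator_of_mem (show e ∈ {e : ℤ | z < (e : ℝ)} from he)]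
        by_contra hne
        have hpos : 0 < PL.dens (MinAt d m r e) := lt_of_le_of_ne (p_nonneg h e) (Ne.symm hne)
        have h2 : e ≤ B := hB hpos
        have h3 : (e : ℝ) ≤ B := by exact_mod_cast h2
        linarith
      · rw [Set.indicator_of_notMem (show e ∉ {e : ℤ | z < (e : ℝ)} from he)]
    simp only [h1, tsum_zero, mul_zero]
  · intro ht
    by_contra hinf
    obtain ⟨c, hc, hlow⟩ := p_lower h
    obtain ⟨z₀, hz₀⟩ := eventually_atTop.1 (ht.eventually (gt_mem_nhds (show (0 : ℝ) < c / 2 by positivity)))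
    -- a large atom
    obtain ⟨e, he1, he2⟩ : ∃ e : ℤ, 0 < PL.dens (MinAt d m r e) ∧ 2 * max z₀ 1 < e := by
      by_contra hcon
      push Not at hcon
      refine hinf ((Set.finite_Icc (0 : ℤ) ⌊2 * max z₀ 1⌋).subset fun e he => ?_)
      refine ⟨?_, Int.le_floor.2 (hcon e he)⟩
      by_contra hneg
      push Not at hneg
      have : ¬ Low d m r e := fun hl => by have := hl.1; omega
      have h3 := p_zero h (Or.inr this)
      have he' : 0 < PL.dens (MinAt d m r e) := he
      rw [h3] at he'
      exact lt_irrefl _ he'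
    have hz1 : 1 ≤ max z₀ 1 := le_max_right _ _
    have he0 : (0 : ℝ) < e := by linarith
    have hl : Low d m r e := by
      by_contra hcon
      rw [p_zero h (Or.inr hcon)] at he1
      exact lt_irrefl _ he1
    have hal : ¬ PL.Dead d m r e := by
      intro hdead
      rw [p_zero h (Or.inl hdead)] at he1
      exact lt_irrefl _ he1
    have h1 := (hlow e hl hal).1
    have h2 := hz₀ ((e : ℝ) / 2) (by
      have := le_max_left z₀ 1
      linarith)
    have h3 : PL.dens (MinAt d m r e) ≤ ∑' e' : ℤ,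
        Set.indicator {e' : ℤ | (e : ℝ) / 2 < (e' : ℝ)} (fun e' => PL.dens (MinAt d m r e')) e' := by
      have h4 := (hs.indicator {e' : ℤ | (e : ℝ) / 2 < (e' : ℝ)}).le_tsum e (fun e' _ =>
        Set.indicator_nonneg (fun e' _ => p_nonneg h e') e')
      rwa [Set.indicator_of_mem (show e ∈ {e' : ℤ | (e : ℝ) / 2 < (e' : ℝ)} from by
        show (e : ℝ) / 2 < (e : ℝ)
        linarith)] at h4
    have h5 : c / 2 ≤ (e : ℝ) / 2 * PL.dens (MinAt d m r e) := by
      have h6 : c / e * ((e : ℝ) / 2) = c / 2 := by field_simp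
      have h7 := mul_le_mul_of_nonneg_right h1 (by positivity : (0 : ℝ) ≤ (e : ℝ) / 2)
      linarith
    have h8 := mul_le_mul_of_nonneg_left h3 (by positivity : (0 : ℝ) ≤ (e : ℝ) / 2)
    linarith

end Pool.Agent.Helper34.CM
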